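import Pool.Agent.Lib_helper98.HahnQ

/-!
Over every field `K` there is a simple Lie algebra all of whose elements are ad-pure.

Construction: let `C` be the field of Hahn series over `K` with exponents in the
lexicographically ordered group `ℤ × ℤ`, let `s`, `t` be the monomials of exponents `(1, 0)` and
`(0, 1)`, and let `L = C³` with `[e₀, e₁] = e₂`, `[e₁, e₂] = t e₀`, `[e₂, e₀] = s e₁`,
considered as a Lie algebra over `K`. Then `(ad x)³ = -q(x) ad x` with
`q(x) = s x₀² + t x₁² + s t x₂²`, and `q(x)` is transcendental over `K` for `x ≠ 0`, since its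
value is nonzero modulo `2(ℤ × ℤ)`.
-/

set_option autoImplicit false

universe u

namespace Pool.Agent.Results.MP_ef54ea_al.EveryField

/-- Over every field `K` there is a simple Lie algebra `L` over `K` such that for every `a` in
`L`, every finite-dimensional `ad a`-invariant subspace of `L` is killed by `ad a`. -/
theorem result :
    ∀ (K : Type u) [Field K], ∃ (L : Type u) (_ : LieRing L) (_ : LieAlgebra K L),
      LieAlgebra.IsSimple K L ∧
      ∀ a : L, ∀ V : Submodule K L, FiniteDimensional K V →
        (∀ v ∈ V, ⁅a, v⁆ ∈ V) → ∀ v ∈ V, ⁅a, v⁆ = 0 :=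
  fun K _ => Pool.Agent.Lib_helper98.exists_simple_adPure K

end Pool.Agent.Results.MP_ef54ea_al.EveryField
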